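import Pool.Agent.J4H93.HN.Stm

/-! Project HN (helper93), piece NUM (helper98): the parameters exist. -/

set_option autoImplicit false

namespace Pool.Agent.J4H98.HN

open Finset Filter Topology Pool.Agent.J4H93.HN

theorem log_le (C : ℝ) : ∀ᶠ V : ℕ in atTop, C * Real.log V ≤ V := by
  have h1 := (Real.isLittleO_log_id_atTop.bound (show (0 : ℝ) < 1 / (|C| + 1) by positivity))
  have h2 := tendsto_natCast_atTop_atTop (R := ℝ) |>.eventually h1
  filter_upwards [h2] with V hV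
  simp only [id, Real.norm_eq_abs, Nat.abs_cast] at hV
  have h3 : C * Real.log V ≤ |C| * |Real.log V| := by
    rw [← abs_mul]
    exact le_abs_self _
  have h4 : |C| * |Real.log V| ≤ |C| * (1 / (|C| + 1) * V) :=
    mul_le_mul_of_nonneg_left hV (abs_nonneg C)
  have h5 : |C| * (1 / (|C| + 1) * V) ≤ V := by
    have h6 : |C| * (1 / (|C| + 1)) ≤ 1 := by
      rw [mul_one_div, div_le_one (by positivity)]
      linarith
    calc |C| * (1 / (|C| + 1) * V) = |C| * (1 / (|C| + 1)) * V := by ring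
      _ ≤ 1 * V := mul_le_mul_of_nonneg_right h6 (Nat.cast_nonneg V)
      _ = V := one_mul _
  linarith

theorem R_nonneg (A : Finset ℕ) : 0 ≤ R A := Finset.sum_nonneg fun n _ => by positivity

theorem t_NUM : S_E1 → S_E2 → S_SR → S_PSI → S_ME0 → S_ME1 → S_FEW → S_NUM := by
  intro _ hE2 hSR hPSI hME0 hME1 hFEW r N0
  obtain ⟨hL, C, hC⟩ := hME0
  obtain ⟨hP1, hP2⟩ := hPSI
  obtain ⟨Y₀, hY₀⟩ := Filter.eventually_atTop.1 hME1
  obtain ⟨c1, hc1⟩ : ∃ c1 : ℝ, c1 = (1 / 80) ^ 11 / (Nat.factorial 11 : ℝ) := ⟨_, rfl⟩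
  have hc1pos : 0 < c1 := by
    rw [hc1]
    positivity
  obtain ⟨M, hM⟩ : ∃ M : ℕ, 4 * |C| + 1 ≤ (M : ℝ) := exists_nat_ge _
  have e1 := (hP1.comp hL).eventually_lt_const (zero_lt_one (α := ℝ))
  have e2 := (hP2.comp hL).eventually_ge_atTop (4 * r / c1)
  have e3 := hL.eventually_ge_atTop 2
  have e4 := log_le C
  have e5 := Filter.eventually_ge_atTop (2 ^ M + Y₀ + N0 + 10 ^ 6)
  obtain ⟨V, ⟨⟨⟨⟨h1, h2⟩, h3⟩, h4⟩, h5⟩, h6⟩ :=
    (((((e1.and e2).and e3).and e4).and e5).and hFEW).exists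
  simp only [Function.comp_apply] at h1 h2
  obtain ⟨L, hLd⟩ : ∃ L, L = R (PA V) := ⟨_, rfl⟩
  rw [← hLd] at h1 h2 h3 h6
  obtain ⟨k, hk⟩ : ∃ k, k = ⌊2 * L⌋₊ := ⟨_, rfl⟩
  rw [← hk] at h1 h2 h6
  have hk4 : 4 ≤ k := by
    rw [hk]
    exact Nat.le_floor (by push_cast; linarith)
  have hk2L : (k : ℝ) ≤ 2 * L := by
    rw [hk]
    exact Nat.floor_le (by linarith)
  obtain ⟨Y, hYd⟩ : ∃ Y, Y = V ^ k := ⟨_, rfl⟩
  have h2M : 0 < 2 ^ M := Nat.two_pow_pos M
  have hV6 : 10 ^ 6 ≤ V := by omega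
  have hVY : V ≤ Y := by
    rw [hYd]
    exact Nat.le_self_pow (by omega) V
  have hV1 : 1 ≤ V := by omega
  have hY1 : 1 ≤ Y := hV1.trans hVY
  have hYR : (0 : ℝ) < Y := by exact_mod_cast hY1
  -- the exponential of `L`
  have hexp : Real.exp L ≤ Y := by
    have := hC V (by omega)
    rw [← hLd] at this
    calc Real.exp L ≤ C * Real.log V := this
      _ ≤ V := h4
      _ ≤ Y := by exact_mod_cast hVY
  obtain ⟨m1, m2⟩ := hY₀ Y (by omega)
  -- primes
  have hP0p : ∀ p ∈ PA V, p.Prime := fun p hp => (Finset.mem_filter.1 hp).2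
  have hP1p : ∀ p ∈ PB Y, p.Prime := fun p hp => (Finset.mem_filter.1 hp).2
  have hP0b : ∀ p ∈ PA V, (Nat.log 2 V) ^ 3 < p ∧ p ≤ V ^ 30 := fun p hp =>
    Finset.mem_Ioc.1 (Finset.mem_filter.1 hp).1
  have hP1b : ∀ p ∈ PB Y, Y ^ 29 < p ∧ p ≤ Y ^ 30 := fun p hp =>
    Finset.mem_Ioc.1 (Finset.mem_filter.1 hp).1
  have hdis : Disjoint (PA V) (PB Y) := by
    rw [Finset.disjoint_left]
    intro p hp hp'
    have g1 := (hP0b p hp).2
    have g2 := (hP1b p hp').1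
    have g3 : V ^ 30 ≤ Y ^ 29 := by
      rw [hYd, ← pow_mul]
      exact Nat.pow_le_pow_right hV1 (by omega)
    omega
  -- the parameter `τ`
  obtain ⟨ψ, hψ⟩ : ∃ ψ, ψ = (3 / 5 * L) ^ (k - 1) / (Nat.factorial (k - 1) : ℝ)
      + (3 / 5 * L) ^ k / (Nat.factorial k : ℝ) := ⟨_, rfl⟩
  rw [← hψ] at h1
  have hL0 : 0 ≤ L := by linarith
  have hψ0 : 0 ≤ ψ := by
    rw [hψ]
    positivity
  refine ⟨Y, k, PA V, PB Y, 8 * ψ + 1 / Y, ?_, by omega, ?_⟩
  · refine ⟨by omega, by omega, ?_, ?_, hdis, m2, ?_, ?_, ?_, ?_⟩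
    · intro p hp
      refine ⟨hP0p p hp, ?_⟩
      calc p ^ k ≤ (V ^ 30) ^ k := Nat.pow_le_pow_left (hP0b p hp).2 k
        _ = Y ^ 30 := by rw [hYd, ← pow_mul, ← pow_mul, mul_comm]
    · intro q hq
      exact ⟨hP1p q hq, hP1b q hq⟩
    · rw [← hLd]
      exact hexp
    · linarith
    · rw [← hLd, ← hψ]
      have : 0 < 1 / (Y : ℝ) := by positivity
      linarith
    · intro d hd hd2
      rw [← hLd]
      refine h6 d hd ?_
      rw [← hYd]
      exact hd2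
  · -- the mass
    rw [hSR (PA V) (PB Y) k hP0p hP1p hdis]
    -- the small primes
    have hlog : M ≤ Nat.log 2 V := by
      have : 2 ^ M ≤ V := by omega
      exact Nat.le_log_of_pow_le (by norm_num) this
    obtain ⟨ℓ, hℓ⟩ : ∃ ℓ, ℓ = Nat.log 2 V := ⟨_, rfl⟩
    rw [← hℓ] at hlog
    have hℓR : 4 * |C| + 1 ≤ (ℓ : ℝ) := hM.trans (by exact_mod_cast hlog)
    have hC0 : 0 ≤ |C| := abs_nonneg C
    have hℓ1 : (1 : ℝ) ≤ ℓ := by linarith
    have hlogV : Real.log V ≤ ℓ + 1 := by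
      have g1 : V < 2 ^ (ℓ + 1) := by
        rw [hℓ]
        exact Nat.lt_pow_succ_log_self (by norm_num) V
      have g2 : Real.log V ≤ Real.log ((2 : ℝ) ^ (ℓ + 1)) :=
        Real.log_le_log (by exact_mod_cast hV1) (by exact_mod_cast g1.le)
      rw [Real.log_pow] at g2
      have g3 : Real.log 2 ≤ 1 := by
        have := Real.log_two_lt_d9
        linarith
      push_cast at g2
      nlinarith
    have hlogV0 : 0 ≤ Real.log V := Real.log_nonneg (by exact_mod_cast hV1)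
    have hw : 2 * L ≤ (ℓ : ℝ) ^ 3 := by
      have g1 : L ≤ Real.exp L := by
        have := Real.add_one_le_exp L
        linarith
      have g2 := hC V (by omega)
      rw [← hLd] at g2
      have g3 : C * Real.log V ≤ |C| * (ℓ + 1) := by
        calc C * Real.log V ≤ |C| * Real.log V :=
              mul_le_mul_of_nonneg_right (le_abs_self C) hlogV0
          _ ≤ |C| * (ℓ + 1) := mul_le_mul_of_nonneg_left hlogV hC0
      have g4 : 2 * (|C| * (ℓ + 1)) ≤ (4 * |C|) * ℓ := by nlinarith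
      have g5 : (4 * |C|) * ℓ ≤ (ℓ : ℝ) * ℓ := by nlinarith
      have g6 : (ℓ : ℝ) * ℓ ≤ (ℓ : ℝ) ^ 3 := by
        have : (ℓ : ℝ) ^ 3 = (ℓ : ℝ) * ℓ * ℓ := by ring
        rw [this]
        nlinarith [mul_nonneg (show (0 : ℝ) ≤ ℓ by linarith) (show (0 : ℝ) ≤ ℓ by linarith)]
      linarith
    have hw0 : (0 : ℝ) < (ℓ : ℝ) ^ 3 := by positivity
    have hkw : (k : ℝ) / (ℓ : ℝ) ^ 3 ≤ 1 := by
      rw [div_le_one hw0]
      linarith
    have hes0 : (L - 1) ^ k / (Nat.factorial k : ℝ) ≤ es (PA V) k := by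
      have g1 := hE2 (PA V) ((ℓ : ℝ) ^ 3) k hw0 (by
        intro p hp
        have := (hP0b p hp).1.le
        rw [← hℓ] at this
        exact_mod_cast this) (by rw [← hLd]; linarith)
      rw [← hLd] at g1
      refine le_trans ?_ g1
      have g2 : (L - 1) ^ k ≤ (L - (k : ℝ) / (ℓ : ℝ) ^ 3) ^ k :=
        pow_le_pow_left₀ (by linarith) (by linarith) k
      gcongr
    -- the large primes
    have hY29 : (880 : ℝ) ≤ ((Y ^ 29 : ℕ) : ℝ) := by
      have g1 : 880 ≤ Y ^ 29 := by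
        calc 880 ≤ Y := by omega
          _ ≤ Y ^ 29 := Nat.le_self_pow (by norm_num) Y
      exact_mod_cast g1
    have hw1 : (0 : ℝ) < ((Y ^ 29 : ℕ) : ℝ) := by linarith
    have h11 : ((11 : ℕ) : ℝ) / ((Y ^ 29 : ℕ) : ℝ) ≤ 1 / 80 := by
      rw [div_le_iff₀ hw1]
      push_cast at hY29 ⊢
      linarith
    have hes1 : c1 ≤ es (PB Y) 11 := by
      have g1 := hE2 (PB Y) ((Y ^ 29 : ℕ) : ℝ) 11 hw1 (by
        intro p hp
        exact_mod_cast (hP1b p hp).1.le) (by linarith)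
      refine le_trans ?_ g1
      rw [hc1]
      have g2 : ((1 : ℝ) / 80) ^ 11 ≤ (R (PB Y) - ((11 : ℕ) : ℝ) / ((Y ^ 29 : ℕ) : ℝ)) ^ 11 :=
        pow_le_pow_left₀ (by norm_num) (by linarith) 11
      gcongr
    -- the left side
    have hU : R (PA V ∪ PB Y) = L + R (PB Y) := by
      rw [hLd]
      exact Finset.sum_union hdis
    have hτ : (8 * ψ + 1 / Y) * R (PA V ∪ PB Y) ≤ 2 := by
      rw [hU]
      have g1 : L + R (PB Y) ≤ L + 1 := by linarith
      have g2 : 0 ≤ 8 * ψ + 1 / (Y : ℝ) := by positivity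
      have g3 : (8 * ψ + 1 / Y) * (L + R (PB Y)) ≤ (8 * ψ + 1 / Y) * (L + 1) :=
        mul_le_mul_of_nonneg_left g1 g2
      have g4 : 1 / (Y : ℝ) * (L + 1) ≤ 1 := by
        rw [one_div, inv_mul_le_iff₀ hYR, mul_one]
        exact (Real.add_one_le_exp L).trans hexp
      nlinarith
    have hX : 4 * r ≤ c1 * ((L - 1) ^ k / (Nat.factorial k : ℝ)) := by
      have := h2
      rw [div_le_iff₀ hc1pos] at this
      linarith
    have hX0 : 0 ≤ (L - 1) ^ k / (Nat.factorial k : ℝ) := by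
      have : 0 ≤ L - 1 := by linarith
      positivity
    calc (r : ℝ) * (2 + (8 * ψ + 1 / Y) * R (PA V ∪ PB Y)) ≤ r * (2 + 2) := by
          have : (0 : ℝ) ≤ r := Nat.cast_nonneg r
          gcongr
      _ = 4 * r := by ring
      _ ≤ c1 * ((L - 1) ^ k / (Nat.factorial k : ℝ)) := hX
      _ ≤ es (PB Y) 11 * es (PA V) k := mul_le_mul hes1 hes0 hX0 (hc1pos.le.trans hes1)
      _ = es (PA V) k * es (PB Y) 11 := mul_comm _ _

end Pool.Agent.J4H98.HN
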