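import Pool.Agent.J4H93.HN.Stm

/-! Project HN (helper93), piece FOU (helper98): the probability of an integral sum of reciprocals
by Fourier inversion. -/

set_option autoImplicit false

namespace Pool.Agent.J4H98.HN

open Finset Pool.Agent.J4H93.HN

theorem expand (B : Finset ℕ) (q : ℝ) (h : ℕ) :
    Ph B q (h : ℤ) = ∑ S ∈ B.powerset, ((wt B q S : ℝ) : ℂ) *
      (Complex.exp (2 * Real.pi * Complex.I * (R S : ℝ))) ^ h := by
  unfold Ph
  have h1 : ∀ n ∈ B, (1 - (q : ℂ) + q * Complex.exp (2 * Real.pi * Complex.I * ((h : ℤ) : ℂ) / n)) =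
      q * Complex.exp (2 * Real.pi * Complex.I * ((h : ℤ) : ℂ) / n) + (1 - (q : ℂ)) := by
    intro n _
    ring
  rw [Finset.prod_congr rfl h1, Finset.prod_add]
  refine Finset.sum_congr rfl fun S hS => ?_
  rw [Finset.mem_powerset] at hS
  rw [Finset.prod_mul_distrib, Finset.prod_const, Finset.prod_const, ← Complex.exp_sum,
    Finset.card_sdiff_of_subset hS, ← Complex.exp_nat_mul]
  have h2 : ∑ n ∈ S, 2 * (Real.pi : ℂ) * Complex.I * ((h : ℤ) : ℂ) / (n : ℂ) =
      (h : ℂ) * (2 * Real.pi * Complex.I * ((R S : ℝ) : ℂ)) := by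
    unfold R
    push_cast
    rw [Finset.mul_sum, Finset.mul_sum]
    refine Finset.sum_congr rfl fun n _ => ?_
    ring
  rw [h2]
  unfold wt
  push_cast
  ring

theorem geo (P : ℕ) (_ : 0 < P) (z : ℂ) (hz : z ^ P = 1) :
    (z = 1 → ∑ h ∈ Finset.range P, z ^ h = P) ∧ (z ≠ 1 → ∑ h ∈ Finset.range P, z ^ h = 0) := by
  constructor
  · rintro rfl
    simp
  · intro hne
    have := geom_sum_mul z P
    rw [hz, sub_self] at this
    rcases mul_eq_zero.mp this with h | h
    · exact h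
    · exact absurd (sub_eq_zero.mp h) hne

theorem exp_one_iff (x : ℝ) (hx : 0 ≤ x) :
    Complex.exp (2 * Real.pi * Complex.I * (x : ℝ)) = 1 ↔ ∃ m : ℕ, x = m := by
  rw [Complex.exp_eq_one_iff]
  have h2 : (2 * (Real.pi : ℂ) * Complex.I) ≠ 0 := Complex.two_pi_I_ne_zero
  constructor
  · rintro ⟨n, hn⟩
    have h1 : (x : ℂ) = (n : ℂ) := by
      have h3 : (2 * (Real.pi : ℂ) * Complex.I) * (x : ℂ) =
          (2 * (Real.pi : ℂ) * Complex.I) * (n : ℂ) := by
        rw [hn]
        ring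
      exact mul_left_cancel₀ h2 h3
    have h4 : x = (n : ℝ) := by exact_mod_cast h1
    have h5 : 0 ≤ n := by
      rw [h4] at hx
      exact_mod_cast hx
    refine ⟨n.toNat, ?_⟩
    rw [h4]
    have : ((n.toNat : ℕ) : ℤ) = n := Int.toNat_of_nonneg h5
    exact_mod_cast this.symm
  · rintro ⟨m, rfl⟩
    refine ⟨m, ?_⟩
    push_cast
    ring

open scoped Classical in
theorem t_FOU : S_FOU := by
  intro B q P hP hB
  have hB0 : ∀ n ∈ B, n ≠ 0 := by
    rintro n hn rfl
    exact hP.ne' (zero_dvd_iff.mp (hB 0 hn))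
  have hsum : ∑ h ∈ Finset.range P, Ph B q h = ∑ S ∈ B.powerset, ((wt B q S : ℝ) : ℂ) *
      ∑ h ∈ Finset.range P, (Complex.exp (2 * Real.pi * Complex.I * (R S : ℝ))) ^ h := by
    rw [Finset.sum_congr rfl fun h _ => expand B q h, Finset.sum_comm]
    refine Finset.sum_congr rfl fun S _ => ?_
    rw [Finset.mul_sum]
  rw [hsum]
  have hR0 : ∀ S : Finset ℕ, 0 ≤ R S := fun S =>
    Finset.sum_nonneg fun n _ => by positivity
  have key : ∀ S ∈ B.powerset, ((wt B q S : ℝ) : ℂ) *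
      ∑ h ∈ Finset.range P, (Complex.exp (2 * Real.pi * Complex.I * (R S : ℝ))) ^ h =
      if (∃ m : ℕ, R S = m) then (P : ℂ) * ((wt B q S : ℝ) : ℂ) else 0 := by
    intro S hS
    rw [Finset.mem_powerset] at hS
    have hz : (Complex.exp (2 * Real.pi * Complex.I * (R S : ℝ))) ^ P = 1 := by
      rw [← Complex.exp_nat_mul]
      have h1 : (P : ℝ) * R S = ((∑ n ∈ S, P / n : ℕ) : ℝ) := by
        unfold R
        rw [Finset.mul_sum]
        push_cast
        refine Finset.sum_congr rfl fun n hn => ?_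
        rw [Nat.cast_div (hB n (hS hn)) (by exact_mod_cast hB0 n (hS hn))]
        ring
      have h2 : (P : ℂ) * (2 * Real.pi * Complex.I * ((R S : ℝ) : ℂ)) =
          2 * Real.pi * Complex.I * (((P : ℝ) * R S : ℝ) : ℂ) := by
        push_cast
        ring
      rw [h2, exp_one_iff _ (mul_nonneg (Nat.cast_nonneg _) (hR0 S))]
      exact ⟨_, h1⟩
    have hg := geo P hP _ hz
    split_ifs with hm
    · rw [hg.1 ((exp_one_iff _ (hR0 S)).2 hm)]
      ring
    · rw [hg.2 (fun h => hm ((exp_one_iff _ (hR0 S)).1 h)), mul_zero]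
  rw [Finset.sum_congr rfl key, ← Finset.sum_filter, ← Finset.mul_sum]
  push_cast
  rfl

end Pool.Agent.J4H98.HN
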